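import Mathlib

open MeasureTheory Filter Topology
open scoped NNReal

namespace Pool.Agent.Results.MP_e4fc02_an.KatoVoigtNullVector

variable {Ξ : Type} [MeasurableSpace Ξ] {ν : Measure Ξ}

/-- The real Banach lattice `L¹(Ξ, ν)`. -/
abbrev L1 (ν : Measure Ξ) : Type := Lp ℝ 1 ν

/-- Unbounded linear operators in `L¹(ν)` (a linear subspace as domain and a linear map on it). -/
abbrev UOp (ν : Measure Ξ) : Type := L1 ν →ₗ.[ℝ] L1 ν

/-- Bounded linear operators on `L¹(ν)`. -/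
abbrev BOp (ν : Measure Ξ) : Type := L1 ν →L[ℝ] L1 ν

/-- A substochastic `C₀`-semigroup `(T t)`, `t ≥ 0`, on the real Banach lattice `L¹(ν)`:
`T 0 = 1`, `T (s + t) = T s ∘ T t`, all orbits `t ↦ T t φ` are norm continuous, and every `T t` is
positive and contractive. -/
structure SubstochasticSemigroup (ν : Measure Ξ) where
  /-- the operators of the semigroup -/
  T : ℝ≥0 → BOp ν
  map_zero : T 0 = ContinuousLinearMap.id ℝ (L1 ν)
  map_add : ∀ s t, T (s + t) = (T s).comp (T t)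
  continuous : ∀ φ, Continuous fun t => T t φ
  nonneg : ∀ t φ, 0 ≤ φ → 0 ≤ T t φ
  contractive : ∀ t φ, ‖T t φ‖ ≤ ‖φ‖

/-- `G` is the generator of the semigroup `S`: the pair `(φ, ψ)` is in the graph of `G` if and only
if `(T t φ - φ) / t` converges to `ψ` in `L¹(ν)` as `t ↓ 0`. -/
def IsGenerator (S : SubstochasticSemigroup ν) (G : UOp ν) : Prop :=
  ∀ φ ψ : L1 ν, (φ, ψ) ∈ G.graph ↔
    Tendsto (fun t : ℝ≥0 => (t : ℝ)⁻¹ • (S.T t φ - φ)) (𝓝[>] 0) (𝓝 ψ)

/-- The standing hypotheses on the pair `(M, P)` (the problem's `M₁` and `P`): `M` generates a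
substochastic `C₀`-semigroup, `P` is a positive linear operator whose domain contains the domain
of `M`, and `∫ (M φ + P φ) dν ≤ 0` for every `φ ≥ 0` in the domain of `M`. -/
structure IsKatoPair (M P : UOp ν) : Prop where
  generates : ∃ S : SubstochasticSemigroup ν, IsGenerator S M
  domain_le : M.domain ≤ P.domain
  positive : ∀ φ : P.domain, 0 ≤ (φ : L1 ν) → 0 ≤ P φ
  integral_nonpos : ∀ (φ : L1 ν) (hM : φ ∈ M.domain) (hP : φ ∈ P.domain), 0 ≤ φ →
    ∫ x, (M ⟨φ, hM⟩ x + P ⟨φ, hP⟩ x) ∂ν ≤ 0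

/-- `S`, with generator `J`, is the Kato-Voigt semigroup of the pair `(M, P)`: its generator `J`
extends `M + P`, and `S` is minimal, that is, it is dominated on nonnegative elements by every
substochastic `C₀`-semigroup whose generator extends `M + P`. -/
structure IsKatoVoigt (M P : UOp ν) (S : SubstochasticSemigroup ν) (J : UOp ν) : Prop where
  isGenerator : IsGenerator S J
  sum_le : M + P ≤ J
  minimal : ∀ (S' : SubstochasticSemigroup ν) (J' : UOp ν),
    IsGenerator S' J' → M + P ≤ J' → ∀ (t : ℝ≥0) (φ : L1 ν), 0 ≤ φ → S.T t φ ≤ S'.T t φ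

/-- The Kato-Voigt semigroup with generator `J` is honest: `M + P` is closable and `J` is its
closure. -/
def IsHonest (M P J : UOp ν) : Prop := (M + P).IsClosable ∧ J = (M + P).closure

/-- The Kato-Voigt semigroup with generator `J` is genuinely honest: `J = M + P`, and `J` has the
same domain as `M`. -/
def IsGenuinelyHonest (M P J : UOp ν) : Prop := J = M + P ∧ J.domain = M.domain

/-- `v` is a nonnegative nonzero null vector of `J` outside the domain of `M`. -/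
def IsNullVectorOutside (M J : UOp ν) (v : L1 ν) : Prop :=
  0 ≤ v ∧ v ≠ 0 ∧ v ∉ M.domain ∧ ∃ h : v ∈ J.domain, J ⟨v, h⟩ = 0

/-- `B` is the everywhere defined bounded operator `P (λ - M)⁻¹`: for every `f` there is `φ` in the
domains of `M` and `P` with `λ φ - M φ = f` and `P φ = B f`. -/
def IsPResolvent (M P : UOp ν) (lam : ℝ) (B : BOp ν) : Prop :=
  ∀ f : L1 ν, ∃ (φ : L1 ν) (hM : φ ∈ M.domain) (hP : φ ∈ P.domain),
    lam • φ - M ⟨φ, hM⟩ = f ∧ P ⟨φ, hP⟩ = B f

/-- `B₀` is the operator `P (0 - M)⁻¹`, the strong limit of `P (λ - M)⁻¹` as `λ ↓ 0`. -/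
def IsPResolventZero (M P : UOp ν) (B₀ : BOp ν) : Prop :=
  ∃ B : ℝ → BOp ν, (∀ lam, 0 < lam → IsPResolvent M P lam (B lam)) ∧
    ∀ f, Tendsto (fun lam => B lam f) (𝓝[>] 0) (𝓝 (B₀ f))

/-- The pair `(M, P)` is conservative: `∫ (M φ + P φ) dν = 0` on the domain of `M`. -/
def IsConservative (M P : UOp ν) : Prop :=
  ∀ (φ : L1 ν) (hM : φ ∈ M.domain) (hP : φ ∈ P.domain),
    ∫ x, (M ⟨φ, hM⟩ x + P ⟨φ, hP⟩ x) ∂ν = 0

/-- `M` generates a strongly stable substochastic semigroup. -/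
def IsStronglyStable (M : UOp ν) : Prop :=
  ∃ S : SubstochasticSemigroup ν, IsGenerator S M ∧ ∀ φ, Tendsto (fun t => S.T t φ) atTop (𝓝 0)

/-! ### Basic tools -/

lemma tendsto_toL1 {ι : Type} {l : Filter ι} [l.IsCountablyGenerated]
    {F : ι → Ξ → ℝ} {f G : Ξ → ℝ} (hF : ∀ i, Integrable (F i) ν) (hf : Integrable f ν)
    (hG : Integrable G ν) (hb : ∀ᶠ i in l, ∀ᵐ x ∂ν, |F i x| ≤ G x)
    (hlim : ∀ᵐ x ∂ν, Tendsto (fun i => F i x) l (𝓝 (f x))) :
    Tendsto (fun i => (hF i).toL1 (F i)) l (𝓝 (hf.toL1 f)) := by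
  rw [tendsto_iff_norm_sub_tendsto_zero]
  have h1 : ∀ i, ‖(hF i).toL1 (F i) - hf.toL1 f‖ = ∫ x, |F i x - f x| ∂ν := by
    intro i
    rw [← Integrable.toL1_sub, L1.norm_eq_integral_norm]
    apply integral_congr_ae
    filter_upwards [((hF i).sub hf).coeFn_toL1] with x hx
    rw [hx]; rfl
  simp_rw [h1]
  have h2 : (0:ℝ) = ∫ x, (0:ℝ) ∂ν := by simp
  rw [h2]
  apply tendsto_integral_filter_of_dominated_convergence (fun x => G x + |f x|)
  · exact Eventually.of_forall fun i => ((hF i).sub hf).abs.aestronglyMeasurable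
  · filter_upwards [hb] with i hi
    filter_upwards [hi] with x hx
    rw [Real.norm_eq_abs, abs_abs]
    calc |F i x - f x| ≤ |F i x| + |f x| := abs_sub _ _
      _ ≤ G x + |f x| := by linarith
  · exact hG.add hf.abs
  · filter_upwards [hlim] with x hx
    have := (hx.sub_const (f x)).abs
    simpa using this

/-- multiplication by a bounded measurable function -/
lemma integrable_mul {m : Ξ → ℝ} (hm : Measurable m) {C : ℝ} (hC : ∀ x, |m x| ≤ C)
    (φ : Lp ℝ 1 ν) : Integrable (fun x => m x * φ x) ν := by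
  apply (L1.integrable_coeFn φ).bdd_mul hm.aestronglyMeasurable
  exact Eventually.of_forall hC

lemma integrable_of_le {m g : Ξ → ℝ} (hm : Measurable m) (φ : Lp ℝ 1 ν)
    (hg : Integrable (fun x => g x * φ x) ν) (h : ∀ x, |m x| ≤ |g x|) :
    Integrable (fun x => m x * φ x) ν := by
  apply hg.mono (hm.aestronglyMeasurable.mul (L1.integrable_coeFn φ).aestronglyMeasurable)
  refine Eventually.of_forall fun x => ?_
  simp only [Pi.mul_apply, norm_mul, Real.norm_eq_abs]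
  exact mul_le_mul_of_nonneg_right (h x) (abs_nonneg _)

/-- Multiplication by a bounded measurable function as a bounded operator. -/
noncomputable def mulOp (ν : Measure Ξ) (m : Ξ → ℝ) (hm : Measurable m) (C : ℝ)
    (hC : ∀ x, |m x| ≤ C) : Lp ℝ 1 ν →L[ℝ] Lp ℝ 1 ν :=
  LinearMap.mkContinuous
    { toFun := fun φ => (integrable_mul hm hC φ).toL1 _
      map_add' := by
        intro φ ψ
        apply Lp.ext
        filter_upwards [(integrable_mul hm hC (φ + ψ)).coeFn_toL1,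
          (integrable_mul hm hC φ).coeFn_toL1, (integrable_mul hm hC ψ).coeFn_toL1,
          Lp.coeFn_add φ ψ, Lp.coeFn_add ((integrable_mul hm hC φ).toL1 _)
            ((integrable_mul hm hC ψ).toL1 _)] with x h1 h2 h3 h4 h5
        rw [h1, h5, Pi.add_apply, h2, h3, h4, Pi.add_apply]
        ring
      map_smul' := by
        intro c φ
        apply Lp.ext
        filter_upwards [(integrable_mul hm hC (c • φ)).coeFn_toL1,
          (integrable_mul hm hC φ).coeFn_toL1, 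
          Lp.coeFn_smul c φ, Lp.coeFn_smul c ((integrable_mul hm hC φ).toL1 _)] with x h1 h2 h3 h4
        simp only [RingHom.id_apply]
        rw [h1, h4, Pi.smul_apply, h2, h3, Pi.smul_apply]
        simp only [smul_eq_mul]
        ring } C (by
      intro φ
      simp only [LinearMap.coe_mk, AddHom.coe_mk]
      rw [L1.norm_eq_integral_norm, L1.norm_eq_integral_norm, ← integral_const_mul]
      apply integral_mono_ae (L1.integrable_coeFn _).norm ((L1.integrable_coeFn _).norm.const_mul C)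
      filter_upwards [(integrable_mul hm hC φ).coeFn_toL1] with x h1
      rw [h1, norm_mul]
      exact mul_le_mul_of_nonneg_right (hC x) (norm_nonneg _))

lemma mulOp_coe (m : Ξ → ℝ) (hm : Measurable m) (C : ℝ)
    (hC : ∀ x, |m x| ≤ C) (φ : Lp ℝ 1 ν) :
    mulOp ν m hm C hC φ =ᵐ[ν] fun x => m x * φ x :=
  (integrable_mul hm hC φ).coeFn_toL1

lemma mulOp_eq (m : Ξ → ℝ) (hm : Measurable m) (C : ℝ)
    (hC : ∀ x, |m x| ≤ C) (φ : Lp ℝ 1 ν) :
    mulOp ν m hm C hC φ = (integrable_mul hm hC φ).toL1 _ := rfl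

/-- total integral functional. -/
noncomputable def I (ν : Measure Ξ) : Lp ℝ 1 ν →L[ℝ] ℝ := L1.integralCLM

lemma I_eq (φ : Lp ℝ 1 ν) : I ν φ = ∫ x, φ x ∂ν := by
  rw [I, ← L1.integral_eq φ, L1.integral_eq_integral]

lemma norm_eq_I {φ : Lp ℝ 1 ν} (h : 0 ≤ φ) : ‖φ‖ = I ν φ := by
  rw [L1.norm_eq_integral_norm, I_eq]
  apply integral_congr_ae
  filter_upwards [(Lp.coeFn_nonneg φ).2 h] with x hx
  simpa using hx

lemma I_nonneg {φ : Lp ℝ 1 ν} (h : 0 ≤ φ) : 0 ≤ I ν φ := by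
  rw [← norm_eq_I h]; exact norm_nonneg _

lemma abs_I_le (φ : Lp ℝ 1 ν) : |I ν φ| ≤ ‖φ‖ := by
  rw [L1.norm_eq_integral_norm, I_eq]
  exact norm_integral_le_integral_norm (fun x => φ x)


/-! ### The two semigroups of the example -/

section Example

variable (a : Ξ → ℝ) (ha : Measurable a) (ha1 : ∀ x, 1 ≤ a x)

omit [MeasurableSpace Ξ] in
lemma exp_bound (ha1 : ∀ x, 1 ≤ a x) (t : ℝ≥0) (x : Ξ) : |Real.exp (-(t : ℝ) * a x)| ≤ 1 := by
  rw [abs_of_pos (Real.exp_pos _)]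
  apply Real.exp_le_one_iff.2
  have := ha1 x
  have h2 := t.coe_nonneg
  nlinarith

lemma exp_meas (ha : Measurable a) (t : ℝ≥0) :
    Measurable fun x => Real.exp (-(t : ℝ) * a x) := by fun_prop

/-- The semigroup of multiplication by `exp (-t a)`. -/
noncomputable def semM (ν : Measure Ξ) : SubstochasticSemigroup ν where
  T t := mulOp ν (fun x => Real.exp (-(t : ℝ) * a x)) (exp_meas a ha t) 1 (exp_bound a ha1 t)
  map_zero := by
    apply ContinuousLinearMap.ext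
    intro φ
    apply Lp.ext
    filter_upwards [mulOp_coe _ (exp_meas a ha 0) 1 (exp_bound a ha1 0) φ] with x hx
    rw [hx]
    simp
  map_add := by
    intro s t
    apply ContinuousLinearMap.ext
    intro φ
    rw [ContinuousLinearMap.comp_apply]
    apply Lp.ext
    filter_upwards [mulOp_coe _ (exp_meas a ha (s + t)) 1 (exp_bound a ha1 (s + t)) φ,
      mulOp_coe _ (exp_meas a ha s) 1 (exp_bound a ha1 s)
        (mulOp ν _ (exp_meas a ha t) 1 (exp_bound a ha1 t) φ),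
      mulOp_coe _ (exp_meas a ha t) 1 (exp_bound a ha1 t) φ] with x h1 h2 h3
    rw [h1, h2, h3, ← mul_assoc, ← Real.exp_add, NNReal.coe_add]
    congr 2
    ring
  continuous := by
    intro φ
    rw [continuous_iff_continuousAt]
    intro s
    simp only [ContinuousAt, mulOp_eq]
    apply tendsto_toL1 (G := fun x => |φ x|)
    · exact (L1.integrable_coeFn φ).abs
    · refine Eventually.of_forall fun t => Eventually.of_forall fun x => ?_
      rw [abs_mul]
      have := exp_bound a ha1 t x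
      calc _ ≤ 1 * |φ x| := mul_le_mul_of_nonneg_right this (abs_nonneg _)
        _ = |φ x| := one_mul _
    · refine Eventually.of_forall fun x => ?_
      apply Tendsto.mul_const
      have : Continuous fun t : ℝ≥0 => Real.exp (-(t : ℝ) * a x) := by fun_prop
      exact this.tendsto s
  nonneg := by
    intro t φ h
    rw [← Lp.coeFn_nonneg] at h ⊢
    filter_upwards [h, mulOp_coe _ (exp_meas a ha t) 1 (exp_bound a ha1 t) φ] with x h1 h2
    rw [h2]
    exact mul_nonneg (Real.exp_pos _).le h1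
  contractive := by
    intro t φ
    have := (mulOp ν _ (exp_meas a ha t) 1 (exp_bound a ha1 t)).le_opNorm φ
    have h2 : ‖mulOp ν _ (exp_meas a ha t) 1 (exp_bound a ha1 t)‖ ≤ 1 :=
      LinearMap.mkContinuous_norm_le _ zero_le_one _
    calc _ ≤ _ := this
      _ ≤ 1 * ‖φ‖ := mul_le_mul_of_nonneg_right h2 (norm_nonneg _)
      _ = ‖φ‖ := one_mul _

/-- Domain of multiplication by `a`. -/
def dom (ν : Measure Ξ) : Submodule ℝ (Lp ℝ 1 ν) where
  carrier := {φ | Integrable (fun x => a x * φ x) ν}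
  add_mem' := by
    intro φ ψ h1 h2
    simp only [Set.mem_ofPred_eq] at *
    apply (h1.add h2).congr
    filter_upwards [Lp.coeFn_add φ ψ] with x hx
    rw [hx, Pi.add_apply, Pi.add_apply]
    ring
  zero_mem' := by
    simp only [Set.mem_ofPred_eq]
    apply (integrable_zero Ξ ℝ ν).congr
    filter_upwards [Lp.coeFn_zero ℝ 1 ν] with x hx
    rw [hx]
    simp
  smul_mem' := by
    intro c φ h1
    simp only [Set.mem_ofPred_eq] at *
    apply (h1.const_mul c).congr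
    filter_upwards [Lp.coeFn_smul c φ] with x hx
    rw [hx, Pi.smul_apply, smul_eq_mul]
    ring

/-- `φ ↦ - a φ` as a linear map on the domain of multiplication by `a`. -/
noncomputable def opMfun (ν : Measure Ξ) : dom a ν →ₗ[ℝ] Lp ℝ 1 ν where
  toFun := fun φ => -(Integrable.toL1 (fun x => a x * (φ : Lp ℝ 1 ν) x) φ.2)
  map_add' := by
    intro φ ψ
    rw [← neg_add, neg_inj]
    apply Lp.ext
    filter_upwards [Integrable.coeFn_toL1 (φ + ψ).2, Integrable.coeFn_toL1 φ.2,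
      Integrable.coeFn_toL1 ψ.2, Lp.coeFn_add (φ : Lp ℝ 1 ν) (ψ : Lp ℝ 1 ν),
      Lp.coeFn_add (Integrable.toL1 _ φ.2) (Integrable.toL1 _ ψ.2)] with x h1 h2 h3 h4 h5
    rw [h1, h5, Pi.add_apply, h2, h3, Submodule.coe_add, h4, Pi.add_apply]
    ring
  map_smul' := by
    intro c φ
    rw [RingHom.id_apply, smul_neg, neg_inj]
    apply Lp.ext
    filter_upwards [Integrable.coeFn_toL1 (c • φ).2, Integrable.coeFn_toL1 φ.2,
      Lp.coeFn_smul c (φ : Lp ℝ 1 ν),
      Lp.coeFn_smul c (Integrable.toL1 _ φ.2)] with x h1 h2 h3 h4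
    rw [h1, h4, Pi.smul_apply, h2, Submodule.coe_smul, h3, Pi.smul_apply, smul_eq_mul,
      smul_eq_mul]
    ring

/-- `M φ = - a φ` with its maximal domain. -/
noncomputable def opM (ν : Measure Ξ) : Lp ℝ 1 ν →ₗ.[ℝ] Lp ℝ 1 ν where
  domain := dom a ν
  toFun := opMfun a ν

lemma opM_domain : (opM a ν).domain = dom a ν := rfl

lemma mem_dom {φ : Lp ℝ 1 ν} : φ ∈ dom a ν ↔ Integrable (fun x => a x * φ x) ν := Iff.rfl

lemma opM_apply (φ : (opM a ν).domain) :
    opM a ν φ = -(Integrable.toL1 (fun x => a x * (φ : Lp ℝ 1 ν) x) φ.2) := rfl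

lemma opM_coe (φ : (opM a ν).domain) :
    opM a ν φ =ᵐ[ν] fun x => - (a x * (φ : Lp ℝ 1 ν) x) := by
  rw [opM_apply]
  filter_upwards [Integrable.coeFn_toL1 φ.2, Lp.coeFn_neg (Integrable.toL1 _ φ.2)] with x h1 h2
  rw [h2, Pi.neg_apply, h1]


lemma abs_exp_quot_le (a : ℝ) (ha : 0 ≤ a) (t : ℝ) (ht : 0 < t) :
    |t⁻¹ * (Real.exp (-t * a) - 1)| ≤ a := by
  have h1 : Real.exp (-t * a) ≤ 1 := by
    apply Real.exp_le_one_iff.2
    nlinarith
  have h2 : -t * a + 1 ≤ Real.exp (-t * a) := Real.add_one_le_exp _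
  rw [abs_of_nonpos]
  · rw [← mul_neg, inv_mul_le_iff₀ ht]
    linarith
  · apply mul_nonpos_of_nonneg_of_nonpos (inv_nonneg.2 ht.le)
    linarith

lemma tendsto_exp_quot (a : ℝ) :
    Tendsto (fun t : ℝ≥0 => (t : ℝ)⁻¹ * (Real.exp (-(t : ℝ) * a) - 1)) (𝓝[>] 0) (𝓝 (-a)) := by
  have h : HasDerivAt (fun t : ℝ => Real.exp (-t * a)) (-a) 0 := by
    have := ((hasDerivAt_id (0 : ℝ)).neg.mul_const a).exp
    simpa using this
  have h2 := h.tendsto_slope_zero_right
  simp only [zero_add, neg_zero, zero_mul, Real.exp_zero, smul_eq_mul] at h2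
  have h3 : Tendsto (fun t : ℝ≥0 => (t : ℝ)) (𝓝[>] 0) (𝓝[>] 0) := by
    apply tendsto_nhdsWithin_of_tendsto_nhds_of_eventually_within
    · exact (NNReal.continuous_coe.tendsto 0).mono_left nhdsWithin_le_nhds
    · filter_upwards [self_mem_nhdsWithin] with t ht
      exact NNReal.coe_pos.2 ht
  exact h2.comp h3

lemma semM_apply_coe (t : ℝ≥0) (φ : Lp ℝ 1 ν) :
    (semM a ha ha1 ν).T t φ =ᵐ[ν] fun x => Real.exp (-(t : ℝ) * a x) * φ x :=
  mulOp_coe _ (exp_meas a ha t) 1 (exp_bound a ha1 t) φ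

lemma quot_integrable (ha : Measurable a) (ha1 : ∀ x, 1 ≤ a x) (t : ℝ≥0) (φ : Lp ℝ 1 ν) :
    Integrable (fun x => ((t : ℝ)⁻¹ * (Real.exp (-(t : ℝ) * a x) - 1)) * φ x) ν := by
  have h1 := ((integrable_mul (exp_meas a ha t) (exp_bound a ha1 t) φ).sub
    (L1.integrable_coeFn φ)).const_mul (t : ℝ)⁻¹
  apply h1.congr
  refine Eventually.of_forall fun x => ?_
  simp only [Pi.sub_apply]
  ring

lemma quot_eq (t : ℝ≥0) (φ : Lp ℝ 1 ν) :
    (t : ℝ)⁻¹ • ((semM a ha ha1 ν).T t φ - φ) =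
      (quot_integrable a ha ha1 t φ).toL1 _ := by
  apply Lp.ext
  filter_upwards [(quot_integrable a ha ha1 t φ).coeFn_toL1, semM_apply_coe a ha ha1 t φ,
    Lp.coeFn_smul (t : ℝ)⁻¹ ((semM a ha ha1 ν).T t φ - φ),
    Lp.coeFn_sub ((semM a ha ha1 ν).T t φ) φ] with x h1 h2 h3 h4
  rw [h1, h3, Pi.smul_apply, h4, Pi.sub_apply, h2, smul_eq_mul]
  ring

lemma isGenerator_semM : IsGenerator (semM a ha ha1 ν) (opM a ν) := by
  intro φ ψ
  rw [LinearPMap.mem_graph_iff]
  simp only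
  have hlim : ∀ᵐ x ∂ν, Tendsto (fun t : ℝ≥0 => ((t : ℝ)⁻¹ * (Real.exp (-(t : ℝ) * a x) - 1)) * φ x)
      (𝓝[>] 0) (𝓝 (- (a x * φ x))) := by
    refine Eventually.of_forall fun x => ?_
    have := (tendsto_exp_quot (a x)).mul_const (φ x)
    simpa using this
  constructor
  · rintro ⟨y, hy, hy2⟩
    have hD : Integrable (fun x => a x * φ x) ν := by
      have h0 : φ ∈ dom a ν := hy ▸ y.2
      exact h0
    have hD' : Integrable (fun x => - (a x * φ x)) ν := hD.neg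
    have hψ : ψ = hD'.toL1 _ := by
      rw [← hy2]
      apply Lp.ext
      filter_upwards [opM_coe a y, hD'.coeFn_toL1] with x h1 h2
      rw [h1, h2, hy]
    rw [hψ]
    simp only [quot_eq]
    apply tendsto_toL1 (G := fun x => |a x * φ x|) _ hD' hD.abs _ hlim
    filter_upwards [self_mem_nhdsWithin] with t ht
    refine Eventually.of_forall fun x => ?_
    rw [abs_mul _ (φ x), abs_mul (a x) (φ x)]
    apply mul_le_mul_of_nonneg_right _ (abs_nonneg _)
    rw [abs_of_nonneg (by linarith [ha1 x] : (0:ℝ) ≤ a x)]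
    exact abs_exp_quot_le (a x) (by linarith [ha1 x]) t (NNReal.coe_pos.2 ht)
  · intro h
    -- pass to a sequence
    obtain ⟨s, hs⟩ := exists_seq_tendsto (𝓝[>] (0 : ℝ≥0))
    have h2 := h.comp hs
    have h3 : TendstoInMeasure ν (fun n => (((s n : ℝ≥0) : ℝ)⁻¹ • ((semM a ha ha1 ν).T (s n) φ - φ) :
        Lp ℝ 1 ν)) atTop ψ := tendstoInMeasure_of_tendsto_Lp h2
    obtain ⟨ns, hns, hlim2⟩ := h3.exists_seq_tendsto_ae
    have hae : ∀ᵐ x ∂ν, ∀ n, (((s n : ℝ≥0) : ℝ)⁻¹ • ((semM a ha ha1 ν).T (s n) φ - φ) :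
        Lp ℝ 1 ν) x = (((s n : ℝ≥0) : ℝ)⁻¹ * (Real.exp (-((s n : ℝ≥0) : ℝ) * a x) - 1)) * φ x := by
      rw [ae_all_iff]
      intro n
      rw [quot_eq]
      exact (quot_integrable a ha ha1 (s n) φ).coeFn_toL1
    have hψ : ∀ᵐ x ∂ν, ψ x = - (a x * φ x) := by
      filter_upwards [hlim2, hae, hlim] with x h4 h5 h6
      apply tendsto_nhds_unique h4
      have h7 := h6.comp (hs.comp hns.tendsto_atTop)
      refine h7.congr fun n => ?_
      simp only [Function.comp_apply]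
      exact (h5 (ns n)).symm
    have hD : Integrable (fun x => a x * φ x) ν := by
      have := (L1.integrable_coeFn ψ).neg
      apply this.congr
      filter_upwards [hψ] with x hx
      rw [Pi.neg_apply, hx, neg_neg]
    refine ⟨⟨φ, hD⟩, rfl, ?_⟩
    apply Lp.ext
    filter_upwards [opM_coe a (⟨φ, hD⟩ : (opM a ν).domain), hψ] with x h1 h2
    rw [h1, h2]


/-! #### The rank-one reset semigroup -/

variable (v : Lp ℝ 1 ν) (hv : 0 ≤ v) (hv1 : I ν v = 1)

/-- `Q φ = (∫ φ) v`. -/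
noncomputable def opQ : Lp ℝ 1 ν →L[ℝ] Lp ℝ 1 ν := (I ν).smulRight v

lemma opQ_apply (φ : Lp ℝ 1 ν) : opQ v φ = I ν φ • v := rfl

/-- `B = Q - 1`. -/
noncomputable def opB : Lp ℝ 1 ν →L[ℝ] Lp ℝ 1 ν := opQ v - ContinuousLinearMap.id ℝ _

lemma opB_apply (φ : Lp ℝ 1 ν) : opB v φ = I ν φ • v - φ := rfl

lemma L1_smul_nonneg {c : ℝ} (hc : 0 ≤ c) {φ : Lp ℝ 1 ν} (h : 0 ≤ φ) : 0 ≤ c • φ := by
  rw [← Lp.coeFn_nonneg] at h ⊢
  filter_upwards [h, Lp.coeFn_smul c φ] with x h1 h2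
  rw [h2, Pi.smul_apply, smul_eq_mul]
  exact mul_nonneg hc h1

/-- The semigroup generated by `B`. -/
noncomputable def semJ : SubstochasticSemigroup ν where
  T t := Real.exp (-(t : ℝ)) • ContinuousLinearMap.id ℝ _ + (1 - Real.exp (-(t : ℝ))) • opQ v
  map_zero := by
    simp
  map_add := by
    intro s t
    apply ContinuousLinearMap.ext
    intro φ
    simp only [ContinuousLinearMap.comp_apply, _root_.add_apply,
      _root_.smul_apply, ContinuousLinearMap.id_apply, opQ_apply, map_add, map_smul,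
      NNReal.coe_add, neg_add, Real.exp_add, smul_add, hv1, smul_smul]
    module
  continuous := by
    intro φ
    simp only [_root_.add_apply, _root_.smul_apply]
    fun_prop
  nonneg := by
    intro t φ h
    simp only [_root_.add_apply, _root_.smul_apply,
      ContinuousLinearMap.id_apply, opQ_apply]
    have h1 : Real.exp (-(t : ℝ)) ≤ 1 := by
      apply Real.exp_le_one_iff.2
      simp
    apply add_nonneg
    · exact L1_smul_nonneg (Real.exp_pos _).le h
    · exact L1_smul_nonneg (by linarith) (L1_smul_nonneg (I_nonneg h) hv)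
  contractive := by
    intro t φ
    simp only [_root_.add_apply, _root_.smul_apply,
      ContinuousLinearMap.id_apply, opQ_apply]
    have h1 : Real.exp (-(t : ℝ)) ≤ 1 := by
      apply Real.exp_le_one_iff.2
      simp
    have h2 : ‖v‖ = 1 := by rw [norm_eq_I hv, hv1]
    calc _ ≤ ‖Real.exp (-(t : ℝ)) • φ‖ + ‖(1 - Real.exp (-(t : ℝ))) • I ν φ • v‖ := norm_add_le _ _
      _ = Real.exp (-(t : ℝ)) * ‖φ‖ + (1 - Real.exp (-(t : ℝ))) * |I ν φ| := by
        rw [norm_smul, norm_smul, norm_smul, h2, mul_one, Real.norm_eq_abs, Real.norm_eq_abs,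
          Real.norm_eq_abs, abs_of_pos (Real.exp_pos _), abs_of_nonneg (by linarith : (0:ℝ) ≤ 1 - Real.exp (-(t : ℝ)))]
      _ ≤ Real.exp (-(t : ℝ)) * ‖φ‖ + (1 - Real.exp (-(t : ℝ))) * ‖φ‖ := by
        have := abs_I_le φ
        have h3 : 0 ≤ 1 - Real.exp (-(t : ℝ)) := by linarith
        have := mul_le_mul_of_nonneg_left this h3
        linarith
      _ = ‖φ‖ := by ring

/-- `B` as an everywhere defined operator. -/
noncomputable def opJ : Lp ℝ 1 ν →ₗ.[ℝ] Lp ℝ 1 ν := (opB v : Lp ℝ 1 ν →ₗ[ℝ] Lp ℝ 1 ν).toPMap ⊤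

lemma mem_graph_opJ (φ ψ : Lp ℝ 1 ν) : (φ, ψ) ∈ (opJ v).graph ↔ ψ = opB v φ := by
  rw [LinearPMap.mem_graph_iff]
  simp only
  constructor
  · rintro ⟨y, hy, hy2⟩
    rw [← hy2, ← hy]
    rfl
  · intro h
    exact ⟨⟨φ, trivial⟩, rfl, h.symm⟩

lemma semJ_T (t : ℝ≥0) (φ : Lp ℝ 1 ν) :
    (semJ v hv hv1).T t φ = Real.exp (-(t : ℝ)) • φ + (1 - Real.exp (-(t : ℝ))) • I ν φ • v := rfl

lemma semJ_sub (t : ℝ≥0) (φ : Lp ℝ 1 ν) :
    (semJ v hv hv1).T t φ - φ = (1 - Real.exp (-(t : ℝ))) • opB v φ := by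
  rw [semJ_T, opB_apply]
  module

lemma isGenerator_semJ : IsGenerator (semJ v hv hv1) (opJ v) := by
  intro φ ψ
  rw [mem_graph_opJ]
  have key : Tendsto (fun t : ℝ≥0 => (t : ℝ)⁻¹ • ((semJ v hv hv1).T t φ - φ)) (𝓝[>] 0)
      (𝓝 (opB v φ)) := by
    have h1 := (tendsto_exp_quot 1).neg.smul_const (opB v φ)
    rw [neg_neg, one_smul] at h1
    refine h1.congr fun t => ?_
    rw [semJ_sub, smul_smul, mul_one]
    congr 1
    ring
  constructor
  · rintro rfl
    exact key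
  · intro h
    exact tendsto_nhds_unique h key

end Example

/-! ### Uniqueness of the semigroup extending a densely defined bounded operator -/

section Unique

variable (S S' : SubstochasticSemigroup ν) (B : Lp ℝ 1 ν →L[ℝ] Lp ℝ 1 ν)

lemma step1_aux (φ : Lp ℝ 1 ν) (h : ℝ≥0) (n : ℕ) :
    ‖S.T (n • h) φ - φ‖ ≤ n * ‖S.T h φ - φ‖ := by
  induction n with
  | zero => simp [S.map_zero]
  | succ n ih =>
    have e : S.T ((n + 1) • h) φ - φ = S.T (n • h) (S.T h φ - φ) + (S.T (n • h) φ - φ) := by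
      rw [add_smul, one_smul, S.map_add, ContinuousLinearMap.comp_apply, map_sub]
      abel
    rw [e]
    calc _ ≤ ‖S.T (n • h) (S.T h φ - φ)‖ + ‖S.T (n • h) φ - φ‖ := norm_add_le _ _
      _ ≤ ‖S.T h φ - φ‖ + n * ‖S.T h φ - φ‖ := add_le_add (S.contractive _ _) ih
      _ = _ := by push_cast; ring

/-- the sequence `t/n`. -/
lemma tendsto_div_nat {t : ℝ≥0} (ht : 0 < t) :
    Tendsto (fun n : ℕ => t / ((n + 1 : ℕ) : ℝ≥0)) atTop (𝓝[>] 0) := by
  apply tendsto_nhdsWithin_of_tendsto_nhds_of_eventually_within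
  · have h := (tendsto_const_div_atTop_nhds_zero_nat (t : ℝ)).comp (tendsto_add_atTop_nat 1)
    rw [← NNReal.tendsto_coe]
    refine (h.congr fun n => ?_)
    simp
  · refine Eventually.of_forall fun n => ?_
    have : (0 : ℝ≥0) < ((n + 1 : ℕ) : ℝ≥0) := by positivity
    exact div_pos ht this

lemma nsmul_div (t : ℝ≥0) (n : ℕ) : (n + 1) • (t / ((n + 1 : ℕ) : ℝ≥0)) = t := by
  rw [nsmul_eq_mul]
  field_simp

lemma step1 {φ : Lp ℝ 1 ν} (hφ : Tendsto (fun t : ℝ≥0 => (t : ℝ)⁻¹ • (S.T t φ - φ)) (𝓝[>] 0)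
    (𝓝 (B φ))) (t : ℝ≥0) : ‖S.T t φ - φ‖ ≤ t * ‖B φ‖ := by
  rcases eq_or_lt_of_le (zero_le : (0 : ℝ≥0) ≤ t) with h0 | ht
  · rw [← h0]; simp [S.map_zero]
  have h1 := ((hφ.comp (tendsto_div_nat ht)).norm).const_mul (t : ℝ)
  apply ge_of_tendsto' h1
  intro n
  simp only [Function.comp_apply]
  set h : ℝ≥0 := t / ((n + 1 : ℕ) : ℝ≥0) with hh
  have h2 := step1_aux S φ h (n + 1)
  rw [nsmul_div] at h2
  have h3 : (0 : ℝ) < h := by
    have : (0 : ℝ≥0) < ((n + 1 : ℕ) : ℝ≥0) := by positivity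
    exact_mod_cast div_pos ht this
  have h4 : (t : ℝ) = ((n + 1 : ℕ) : ℝ) * h := by
    have := nsmul_div t n
    rw [← hh, nsmul_eq_mul] at this
    exact_mod_cast this.symm
  rw [norm_smul, norm_inv, Real.norm_of_nonneg h3.le]
  calc _ ≤ _ := h2
    _ = (t : ℝ) * ((h : ℝ)⁻¹ * ‖(S.T h) φ - φ‖) := by
      rw [h4]
      field_simp

lemma step2 {D : Set (Lp ℝ 1 ν)} (hD : Dense D)
    (hφ : ∀ φ ∈ D, Tendsto (fun t : ℝ≥0 => (t : ℝ)⁻¹ • (S.T t φ - φ)) (𝓝[>] 0) (𝓝 (B φ)))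
    (t : ℝ≥0) (φ : Lp ℝ 1 ν) : ‖S.T t φ - φ‖ ≤ t * (‖B‖ * ‖φ‖) := by
  have hc : IsClosed {φ : Lp ℝ 1 ν | ‖S.T t φ - φ‖ ≤ t * (‖B‖ * ‖φ‖)} :=
    isClosed_le (by fun_prop) (by fun_prop)
  have hsub : D ⊆ {φ : Lp ℝ 1 ν | ‖S.T t φ - φ‖ ≤ t * (‖B‖ * ‖φ‖)} := by
    intro φ h
    have h1 := step1 S B (hφ φ h) t
    exact h1.trans (mul_le_mul_of_nonneg_left (B.le_opNorm φ) t.coe_nonneg)
  have := hc.closure_subset_iff.2 hsub
  rw [hD.closure_eq] at this
  exact this (Set.mem_univ φ)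

lemma step3_aux {D : Set (Lp ℝ 1 ν)} (hD : Dense D)
    (hφ : ∀ φ ∈ D, Tendsto (fun t : ℝ≥0 => (t : ℝ)⁻¹ • (S.T t φ - φ)) (𝓝[>] 0) (𝓝 (B φ)))
    (φ : Lp ℝ 1 ν) (h : ℝ≥0) (n : ℕ) :
    ‖S.T (n • h) φ - φ - ((n • h : ℝ≥0) : ℝ) • B φ‖ ≤
      n * ‖S.T h φ - φ - (h : ℝ) • B φ‖ + (n * h) ^ 2 * (‖B‖ * (‖B‖ * ‖φ‖)) := by
  induction n with
  | zero => simp [S.map_zero]
  | succ n ih =>
    have e : S.T ((n + 1) • h) φ - φ - (((n + 1) • h : ℝ≥0) : ℝ) • B φ =
        S.T (n • h) (S.T h φ - φ - (h : ℝ) • B φ) + (h : ℝ) • (S.T (n • h) (B φ) - B φ) +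
        (S.T (n • h) φ - φ - ((n • h : ℝ≥0) : ℝ) • B φ) := by
      rw [add_smul, one_smul, S.map_add, ContinuousLinearMap.comp_apply, map_sub, map_sub,
        map_smul, NNReal.coe_add]
      module
    rw [e]
    have h1 : ‖S.T (n • h) (B φ) - B φ‖ ≤ n * h * (‖B‖ * (‖B‖ * ‖φ‖)) := by
      have h1 := step2 S B hD hφ (n • h) (B φ)
      refine h1.trans ?_
      have h2 : ((n • h : ℝ≥0) : ℝ) = n * h := by
        rw [nsmul_eq_mul]; push_cast; ring
      rw [h2]
      apply mul_le_mul_of_nonneg_left _ (by positivity)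
      exact mul_le_mul_of_nonneg_left (B.le_opNorm φ) (norm_nonneg _)
    calc _ ≤ ‖S.T (n • h) (S.T h φ - φ - (h : ℝ) • B φ)‖ + ‖(h : ℝ) • (S.T (n • h) (B φ) - B φ)‖ +
        ‖S.T (n • h) φ - φ - ((n • h : ℝ≥0) : ℝ) • B φ‖ := norm_add₃_le
      _ ≤ ‖S.T h φ - φ - (h : ℝ) • B φ‖ + h * (n * h * (‖B‖ * (‖B‖ * ‖φ‖))) +
          (n * ‖S.T h φ - φ - (h : ℝ) • B φ‖ + (n * h) ^ 2 * (‖B‖ * (‖B‖ * ‖φ‖))) := by
        apply add_le_add (add_le_add (S.contractive _ _) _) ih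
        rw [norm_smul, Real.norm_of_nonneg h.coe_nonneg]
        exact mul_le_mul_of_nonneg_left h1 h.coe_nonneg
      _ ≤ _ := by
        have hK : 0 ≤ ‖B‖ * (‖B‖ * ‖φ‖) := by positivity
        have hh := h.coe_nonneg
        have hn : (0 : ℝ) ≤ n := Nat.cast_nonneg n
        have : (0 : ℝ) ≤ (n * h ^ 2 + h ^ 2) * (‖B‖ * (‖B‖ * ‖φ‖)) := by positivity
        push_cast
        nlinarith

lemma step3 {D : Set (Lp ℝ 1 ν)} (hD : Dense D)
    (hφ : ∀ φ ∈ D, Tendsto (fun t : ℝ≥0 => (t : ℝ)⁻¹ • (S.T t φ - φ)) (𝓝[>] 0) (𝓝 (B φ)))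
    {φ : Lp ℝ 1 ν} (hφD : φ ∈ D) (t : ℝ≥0) :
    ‖S.T t φ - φ - (t : ℝ) • B φ‖ ≤ t ^ 2 * (‖B‖ * (‖B‖ * ‖φ‖)) := by
  rcases eq_or_lt_of_le (zero_le : (0 : ℝ≥0) ≤ t) with h0 | ht
  · rw [← h0]; simp [S.map_zero]
  have h1 := ((((hφ φ hφD).comp (tendsto_div_nat ht)).sub_const (B φ)).norm).const_mul (t : ℝ)
  have h1' := h1.add_const ((t : ℝ) ^ 2 * (‖B‖ * (‖B‖ * ‖φ‖)))
  rw [sub_self, norm_zero, mul_zero, zero_add] at h1'
  apply ge_of_tendsto' h1'
  intro n
  simp only [Function.comp_apply]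
  set h : ℝ≥0 := t / ((n + 1 : ℕ) : ℝ≥0) with hh
  have h2 := step3_aux S B hD hφ φ h (n + 1)
  rw [nsmul_div] at h2
  have h3 : (0 : ℝ) < h := by
    have : (0 : ℝ≥0) < ((n + 1 : ℕ) : ℝ≥0) := by positivity
    exact_mod_cast div_pos ht this
  have h4 : (t : ℝ) = ((n + 1 : ℕ) : ℝ) * h := by
    have := nsmul_div t n
    rw [← hh, nsmul_eq_mul] at this
    exact_mod_cast this.symm
  rw [← h4] at h2
  refine h2.trans (add_le_add_left ?_ _)
  have h5 : (h : ℝ)⁻¹ • ((S.T h) φ - φ) - B φ = (h : ℝ)⁻¹ • (S.T h φ - φ - (h : ℝ) • B φ) := by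
    rw [smul_sub (h : ℝ)⁻¹ _ ((h : ℝ) • B φ), smul_smul, inv_mul_cancel₀ h3.ne', one_smul]
  rw [h5, norm_smul, norm_inv, Real.norm_of_nonneg h3.le, h4]
  apply le_of_eq
  field_simp

lemma step4 {D : Set (Lp ℝ 1 ν)} (hD : Dense D)
    (hφ : ∀ φ ∈ D, Tendsto (fun t : ℝ≥0 => (t : ℝ)⁻¹ • (S.T t φ - φ)) (𝓝[>] 0) (𝓝 (B φ)))
    (φ : Lp ℝ 1 ν) (t : ℝ≥0) :
    ‖S.T t φ - φ - (t : ℝ) • B φ‖ ≤ t ^ 2 * (‖B‖ * (‖B‖ * ‖φ‖)) := by
  have hc : IsClosed {φ : Lp ℝ 1 ν | ‖S.T t φ - φ - (t : ℝ) • B φ‖ ≤ t ^ 2 * (‖B‖ * (‖B‖ * ‖φ‖))} :=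
    isClosed_le (by fun_prop) (by fun_prop)
  have hsub : D ⊆ {φ : Lp ℝ 1 ν | ‖S.T t φ - φ - (t : ℝ) • B φ‖ ≤ t ^ 2 * (‖B‖ * (‖B‖ * ‖φ‖))} := by
    intro φ h
    exact step3 S B hD hφ h t
  have := hc.closure_subset_iff.2 hsub
  rw [hD.closure_eq] at this
  exact this (Set.mem_univ φ)

lemma unique_aux {K : ℝ} (h : ℝ≥0) (hK : ∀ φ, ‖S.T h φ - S'.T h φ‖ ≤ K * ‖φ‖) (hK0 : 0 ≤ K)
    (φ : Lp ℝ 1 ν) (n : ℕ) : ‖S.T (n • h) φ - S'.T (n • h) φ‖ ≤ n * (K * ‖φ‖) := by
  induction n with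
  | zero => simp [S.map_zero, S'.map_zero]
  | succ n ih =>
    have e : S.T ((n + 1) • h) φ - S'.T ((n + 1) • h) φ =
        S.T h (S.T (n • h) φ - S'.T (n • h) φ) +
          (S.T h (S'.T (n • h) φ) - S'.T h (S'.T (n • h) φ)) := by
      rw [add_smul, one_smul, add_comm (n • h) h, S.map_add, S'.map_add,
        ContinuousLinearMap.comp_apply, ContinuousLinearMap.comp_apply, map_sub]
      abel
    rw [e]
    calc _ ≤ ‖S.T h (S.T (n • h) φ - S'.T (n • h) φ)‖ +
          ‖S.T h (S'.T (n • h) φ) - S'.T h (S'.T (n • h) φ)‖ := norm_add_le _ _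
      _ ≤ n * (K * ‖φ‖) + K * ‖φ‖ := by
        apply add_le_add ((S.contractive _ _).trans ih)
        exact (hK _).trans (mul_le_mul_of_nonneg_left (S'.contractive _ _) hK0)
      _ = _ := by push_cast; ring

/-- Two substochastic semigroups whose generators agree with the same bounded operator on a
dense set coincide. -/
lemma semigroup_unique {D D' : Set (Lp ℝ 1 ν)} (hD : Dense D) (hD' : Dense D')
    (hφ : ∀ φ ∈ D, Tendsto (fun t : ℝ≥0 => (t : ℝ)⁻¹ • (S.T t φ - φ)) (𝓝[>] 0) (𝓝 (B φ)))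
    (hφ' : ∀ φ ∈ D', Tendsto (fun t : ℝ≥0 => (t : ℝ)⁻¹ • (S'.T t φ - φ)) (𝓝[>] 0) (𝓝 (B φ)))
    (t : ℝ≥0) (φ : Lp ℝ 1 ν) : S.T t φ = S'.T t φ := by
  rcases eq_or_lt_of_le (zero_le : (0 : ℝ≥0) ≤ t) with h0 | ht
  · rw [← h0]; simp [S.map_zero, S'.map_zero]
  rw [← sub_eq_zero, ← norm_le_zero_iff]
  have hlim : Tendsto (fun n : ℕ => (((t / ((n + 1 : ℕ) : ℝ≥0) : ℝ≥0) : ℝ)) *
      (2 * t * (‖B‖ * (‖B‖ * ‖φ‖)))) atTop (𝓝 (0 * (2 * t * (‖B‖ * (‖B‖ * ‖φ‖))))) := by
    apply Tendsto.mul_const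
    have h1 := NNReal.tendsto_coe.2 ((tendsto_div_nat ht).mono_right nhdsWithin_le_nhds)
    simpa only [NNReal.coe_zero] using h1
  rw [zero_mul] at hlim
  apply ge_of_tendsto' hlim
  intro n
  set h : ℝ≥0 := t / ((n + 1 : ℕ) : ℝ≥0) with hh
  have h4 : (t : ℝ) = ((n + 1 : ℕ) : ℝ) * h := by
    have := nsmul_div t n
    rw [← hh, nsmul_eq_mul] at this
    exact_mod_cast this.symm
  have hK : ∀ φ, ‖S.T h φ - S'.T h φ‖ ≤ (2 * (h : ℝ) ^ 2 * (‖B‖ * ‖B‖)) * ‖φ‖ := by
    intro φ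
    have h1 := step4 S B hD hφ φ h
    have h2 := step4 S' B hD' hφ' φ h
    have h3 : S.T h φ - S'.T h φ = (S.T h φ - φ - (h : ℝ) • B φ) - (S'.T h φ - φ - (h : ℝ) • B φ) := by
      abel
    rw [h3]
    calc _ ≤ _ := norm_sub_le _ _
      _ ≤ _ := add_le_add h1 h2
      _ = _ := by ring
  have h5 := unique_aux S S' h hK (by positivity) φ (n + 1)
  rw [nsmul_div] at h5
  refine h5.trans (le_of_eq ?_)
  rw [h4]
  ring

end Unique


/-! ### The final assembly -/

section Assembly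

variable (a : Ξ → ℝ) (ha : Measurable a) (ha1 : ∀ x, 1 ≤ a x)
variable (v : Lp ℝ 1 ν) (hv : 0 ≤ v) (hv1 : I ν v = 1)

lemma dense_dom (ha : Measurable a) : Dense (dom a ν : Set (Lp ℝ 1 ν)) := by
  intro φ
  rw [mem_closure_iff_seq_limit]
  have hm : ∀ n : ℕ, Measurable fun x => if |a x| ≤ n then (1 : ℝ) else 0 := fun n =>
    Measurable.ite (measurableSet_le (by fun_prop) (by fun_prop)) measurable_const measurable_const
  have hb : ∀ n : ℕ, ∀ x, |(if |a x| ≤ n then (1 : ℝ) else 0)| ≤ 1 := by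
    intro n x
    split_ifs <;> simp
  have hb2 : ∀ n : ℕ, ∀ x, |a x * (if |a x| ≤ n then (1 : ℝ) else 0)| ≤ n := by
    intro n x
    split_ifs with h
    · simpa using h
    · simp
  refine ⟨fun n => mulOp ν _ (hm n) 1 (hb n) φ, fun n => ?_, ?_⟩
  · show Integrable _ ν
    have h1 := integrable_mul (ha.mul (hm n)) (hb2 n) φ
    apply h1.congr
    filter_upwards [mulOp_coe _ (hm n) 1 (hb n) φ] with x hx
    rw [hx, Pi.mul_apply]
    ring
  · have h1 : φ = (L1.integrable_coeFn φ).toL1 _ := by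
      rw [Integrable.toL1_coeFn]
    conv => rhs; rw [h1]
    simp only [mulOp_eq]
    apply tendsto_toL1 (G := fun x => |φ x|) _ (L1.integrable_coeFn φ)
      (L1.integrable_coeFn φ).abs
    · refine Eventually.of_forall fun n => Eventually.of_forall fun x => ?_
      rw [abs_mul]
      calc _ ≤ 1 * |φ x| := mul_le_mul_of_nonneg_right (hb n x) (abs_nonneg _)
        _ = |φ x| := one_mul _
    · refine Eventually.of_forall fun x => ?_
      obtain ⟨N, hN⟩ := exists_nat_ge |a x|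
      apply tendsto_const_nhds.congr'
      filter_upwards [eventually_ge_atTop N] with n hn
      rw [if_pos (hN.trans (Nat.cast_le.2 hn)), one_mul]

/-- `P φ = (a - 1) φ + (∫ φ) v` on the domain of `M`. -/
noncomputable def opP : Lp ℝ 1 ν →ₗ.[ℝ] Lp ℝ 1 ν where
  domain := dom a ν
  toFun := (opB v : Lp ℝ 1 ν →ₗ[ℝ] Lp ℝ 1 ν).comp (dom a ν).subtype - opMfun a ν

lemma opP_apply (φ : (opP a v).domain) : opP a v φ = opB v φ - opM a ν φ := rfl

lemma sum_domain : (opM a ν + opP a v).domain = dom a ν := by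
  rw [LinearPMap.add_domain]
  exact inf_idem _

lemma sum_apply (φ : (opM a ν + opP a v).domain) : (opM a ν + opP a v) φ = opB v φ := by
  rw [LinearPMap.add_apply, opP_apply]
  exact add_sub_cancel _ _

lemma mem_graph_sum (φ ψ : Lp ℝ 1 ν) :
    (φ, ψ) ∈ (opM a ν + opP a v).graph ↔ φ ∈ dom a ν ∧ ψ = opB v φ := by
  rw [LinearPMap.mem_graph_iff]
  simp only
  constructor
  · rintro ⟨y, hy, hy2⟩
    rw [sum_apply] at hy2
    rw [← hy2, ← hy]
    exact ⟨(sum_domain a v) ▸ y.2, rfl⟩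
  · rintro ⟨h, h2⟩
    refine ⟨⟨φ, by rw [sum_domain]; exact h⟩, rfl, ?_⟩
    rw [sum_apply, h2]

lemma opJ_isClosed : (opJ v).IsClosed := by
  have : ((opJ v).graph : Set (Lp ℝ 1 ν × Lp ℝ 1 ν)) = {p | p.2 = opB v p.1} := by
    ext ⟨φ, ψ⟩
    exact mem_graph_opJ v φ ψ
  rw [LinearPMap.IsClosed, this]
  exact isClosed_eq continuous_snd ((opB v).continuous.comp continuous_fst)

lemma sum_le_opJ : opM a ν + opP a v ≤ opJ v := by
  rw [← LinearPMap.le_graph_iff]
  rintro ⟨φ, ψ⟩ h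
  rw [mem_graph_sum] at h
  rw [mem_graph_opJ]
  exact h.2

lemma closure_sum (ha : Measurable a) : (opM a ν + opP a v).closure = opJ v := by
  have hcl : (opM a ν + opP a v).IsClosable := (opJ_isClosed v).isClosable.leIsClosable (sum_le_opJ a v)
  apply le_antisymm
  · rw [← LinearPMap.le_graph_iff, ← hcl.graph_closure_eq_closure_graph]
    exact Submodule.topologicalClosure_minimal _
      (LinearPMap.le_graph_iff.2 (sum_le_opJ a v)) (opJ_isClosed v)
  · rw [← LinearPMap.le_graph_iff, ← hcl.graph_closure_eq_closure_graph]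
    rintro ⟨φ, ψ⟩ h
    rw [mem_graph_opJ] at h
    rw [h]
    rw [← SetLike.mem_coe, Submodule.topologicalClosure_coe, mem_closure_iff_seq_limit]
    obtain ⟨s, hs, hs2⟩ := mem_closure_iff_seq_limit.1 (dense_dom a (ν := ν) ha φ)
    refine ⟨fun n => (s n, opB v (s n)), fun n => ?_, ?_⟩
    · exact (mem_graph_sum a v _ _).2 ⟨hs n, rfl⟩
    · exact hs2.prodMk_nhds (((opB v).continuous.tendsto φ).comp hs2)


lemma opP_coe (φ : (opP a v).domain) :
    opP a v φ =ᵐ[ν] fun x => (a x - 1) * (φ : Lp ℝ 1 ν) x + I ν (φ : Lp ℝ 1 ν) * v x := by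
  rw [opP_apply, opB_apply]
  filter_upwards [opM_coe a φ, Lp.coeFn_sub (I ν (φ : Lp ℝ 1 ν) • v - (φ : Lp ℝ 1 ν)) (opM a ν φ),
    Lp.coeFn_sub (I ν (φ : Lp ℝ 1 ν) • v) (φ : Lp ℝ 1 ν),
    Lp.coeFn_smul (I ν (φ : Lp ℝ 1 ν)) v] with x h1 h2 h3 h4
  rw [h2, Pi.sub_apply, h1, h3, Pi.sub_apply, h4, Pi.smul_apply, smul_eq_mul]
  ring

lemma opP_nonneg (ha1 : ∀ x, 1 ≤ a x) (hv : 0 ≤ v) (φ : (opP a v).domain)
    (h : 0 ≤ (φ : Lp ℝ 1 ν)) : 0 ≤ opP a v φ := by
  have h0 := I_nonneg h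
  rw [← Lp.coeFn_nonneg] at h hv ⊢
  filter_upwards [h, hv, opP_coe a v φ] with x h1 h2 h3
  rw [h3]
  have := ha1 x
  simp only [Pi.zero_apply] at *
  have h4 : 0 ≤ a x - 1 := by linarith
  positivity

lemma I_opB (hv1 : I ν v = 1) (φ : Lp ℝ 1 ν) : I ν (opB v φ) = 0 := by
  rw [opB_apply, map_sub, map_smul, hv1]
  simp

omit [MeasurableSpace Ξ] in
/-- the function `1/(λ+a)`. -/
lemma inv_bound (ha1 : ∀ x, 1 ≤ a x) {lam : ℝ} (hl : 0 ≤ lam) (x : Ξ) :
    |(lam + a x)⁻¹| ≤ 1 := by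
  have := ha1 x
  rw [abs_inv, abs_of_nonneg (by linarith)]
  exact inv_le_one_of_one_le₀ (by linarith)

lemma inv_meas (ha : Measurable a) (lam : ℝ) : Measurable fun x => (lam + a x)⁻¹ := by fun_prop

/-- `(λ - M)⁻¹`. -/
noncomputable def resM (lam : ℝ) (hl : 0 ≤ lam) : Lp ℝ 1 ν →L[ℝ] Lp ℝ 1 ν :=
  mulOp ν (fun x => (lam + a x)⁻¹) (inv_meas a ha lam) 1 (inv_bound a ha1 hl)

lemma resM_coe (lam : ℝ) (hl : 0 ≤ lam) (f : Lp ℝ 1 ν) :
    resM a ha ha1 lam hl f =ᵐ[ν] fun x => (lam + a x)⁻¹ * f x :=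
  mulOp_coe _ (inv_meas a ha lam) 1 (inv_bound a ha1 hl) f

lemma resM_mem (lam : ℝ) (hl : 0 ≤ lam) (f : Lp ℝ 1 ν) : resM a ha ha1 lam hl f ∈ dom a ν := by
  rw [mem_dom]
  have hb : ∀ x, |a x * (lam + a x)⁻¹| ≤ 1 := by
    intro x
    have := ha1 x
    rw [abs_of_nonneg (by positivity)]
    rw [← div_eq_mul_inv, div_le_one (by linarith)]
    linarith
  apply (integrable_mul (ha.mul (inv_meas a ha lam)) hb f).congr
  filter_upwards [resM_coe a ha ha1 lam hl f] with x hx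
  rw [hx, Pi.mul_apply]
  ring

lemma resM_spec (lam : ℝ) (hl : 0 ≤ lam) (f : Lp ℝ 1 ν) :
    lam • resM a ha ha1 lam hl f - opM a ν ⟨resM a ha ha1 lam hl f, resM_mem a ha ha1 lam hl f⟩ = f := by
  apply Lp.ext
  filter_upwards [resM_coe a ha ha1 lam hl f,
    opM_coe a (⟨resM a ha ha1 lam hl f, resM_mem a ha ha1 lam hl f⟩ : (opM a ν).domain),
    Lp.coeFn_sub (lam • resM a ha ha1 lam hl f)
      (opM a ν ⟨resM a ha ha1 lam hl f, resM_mem a ha ha1 lam hl f⟩),
    Lp.coeFn_smul lam (resM a ha ha1 lam hl f)] with x h1 h2 h3 h4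
  rw [h3, Pi.sub_apply, h2, h4, Pi.smul_apply, h1, smul_eq_mul]
  have := ha1 x
  have h5 : lam + a x ≠ 0 := by positivity
  field_simp
  ring

/-- `P (λ - M)⁻¹ = (B - M) (λ - M)⁻¹ = B (λ-M)⁻¹ + 1 - λ (λ - M)⁻¹`. -/
noncomputable def presM (lam : ℝ) (hl : 0 ≤ lam) : Lp ℝ 1 ν →L[ℝ] Lp ℝ 1 ν :=
  (opB v).comp (resM a ha ha1 lam hl) + ContinuousLinearMap.id ℝ _ - lam • resM a ha ha1 lam hl

lemma presM_spec (lam : ℝ) (hl : 0 ≤ lam) (f : Lp ℝ 1 ν) :
    opP a v ⟨resM a ha ha1 lam hl f, resM_mem a ha ha1 lam hl f⟩ =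
      presM a ha ha1 v lam hl f := by
  have h1 := resM_spec a ha ha1 lam hl f
  have h2 : opM a ν ⟨resM a ha ha1 lam hl f, resM_mem a ha ha1 lam hl f⟩ =
      lam • resM a ha ha1 lam hl f - f :=
    eq_sub_of_add_eq (sub_eq_iff_eq_add'.1 h1).symm
  have h3 : opP a v ⟨resM a ha ha1 lam hl f, resM_mem a ha ha1 lam hl f⟩ =
      opB v (resM a ha ha1 lam hl f) - (lam • resM a ha ha1 lam hl f - f) := by
    rw [opP_apply]
    exact congrArg _ h2
  rw [h3]
  simp only [presM, ContinuousLinearMap.comp_apply, _root_.add_apply, _root_.sub_apply,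
    _root_.smul_apply, ContinuousLinearMap.id_apply]
  abel

lemma isPResolvent (lam : ℝ) (hl : 0 ≤ lam) :
    IsPResolvent (opM a ν) (opP a v) lam (presM a ha ha1 v lam hl) := fun f =>
  ⟨resM a ha ha1 lam hl f, resM_mem a ha ha1 lam hl f, resM_mem a ha ha1 lam hl f,
    resM_spec a ha ha1 lam hl f, presM_spec a ha ha1 v lam hl f⟩

lemma resM_tendsto (f : Lp ℝ 1 ν) :
    Tendsto (fun lam : ℝ => resM a ha ha1 (max lam 0) (le_max_right _ _) f) (𝓝[>] 0)
      (𝓝 (resM a ha ha1 0 le_rfl f)) := by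
  simp only [resM, mulOp_eq]
  apply tendsto_toL1 (G := fun x => |f x|)
  · exact (L1.integrable_coeFn f).abs
  · refine Eventually.of_forall fun lam => Eventually.of_forall fun x => ?_
    rw [abs_mul]
    calc _ ≤ 1 * |f x| := mul_le_mul_of_nonneg_right (inv_bound a ha1 (le_max_right _ _) x)
          (abs_nonneg _)
      _ = |f x| := one_mul _
  · refine Eventually.of_forall fun x => ?_
    apply Tendsto.mul_const
    have h1 : Tendsto (fun lam : ℝ => max lam 0 + a x) (𝓝[>] 0) (𝓝 (0 + a x)) := by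
      have : Continuous fun lam : ℝ => max lam 0 + a x := by fun_prop
      have h2 := this.tendsto 0
      rw [max_self] at h2
      exact h2.mono_left nhdsWithin_le_nhds
    apply h1.inv₀
    have := ha1 x
    positivity

lemma isPResolventZero :
    IsPResolventZero (opM a ν) (opP a v) (presM a ha ha1 v 0 le_rfl) := by
  refine ⟨fun lam => presM a ha ha1 v (max lam 0) (le_max_right _ _), fun lam hl => ?_, fun f => ?_⟩
  · have h1 : max lam 0 = lam := max_eq_left hl.le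
    have h2 := isPResolvent a ha ha1 v (max lam 0) (le_max_right _ _)
    simp only
    nth_rewrite 1 [← h1]
    exact h2
  · simp only [presM, ContinuousLinearMap.comp_apply, _root_.add_apply, _root_.sub_apply,
      _root_.smul_apply, ContinuousLinearMap.id_apply]
    have h1 := resM_tendsto a ha ha1 f
    have h2 : Tendsto (fun lam : ℝ => max lam 0) (𝓝[>] 0) (𝓝 0) := by
      have : Continuous fun lam : ℝ => max lam 0 := by fun_prop
      have h2 := this.tendsto 0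
      rw [max_self] at h2
      exact h2.mono_left nhdsWithin_le_nhds
    exact ((((opB v).continuous.tendsto _).comp h1).add_const f).sub (h2.smul h1)

lemma no_eigenvector (hav : ¬ Integrable (fun x => a x * v x) ν) (u : Lp ℝ 1 ν)
    (hu : presM a ha ha1 v 0 le_rfl u = u) : u = 0 := by
  set w := resM a ha ha1 0 le_rfl u with hw
  have h1 : opB v w = 0 := by
    have : presM a ha ha1 v 0 le_rfl u = opB v w + u := by
      simp only [presM, ContinuousLinearMap.comp_apply, _root_.add_apply,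
        ContinuousLinearMap.id_apply, zero_smul, sub_zero, hw]
    rw [this] at hu
    simpa using hu
  rw [opB_apply, sub_eq_zero] at h1
  have hmem := resM_mem a ha ha1 0 le_rfl u
  rw [← hw] at hmem
  have h2 : I ν w = 0 := by
    by_contra hne
    apply hav
    have h3 : v = (I ν w)⁻¹ • w := ((inv_smul_eq_iff₀ hne).2 h1.symm).symm
    have h4 : v ∈ dom a ν := by
      rw [h3]; exact (dom a ν).smul_mem _ hmem
    exact h4
  rw [h2, zero_smul] at h1
  apply Lp.ext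
  filter_upwards [resM_coe a ha ha1 0 le_rfl u, Lp.coeFn_zero ℝ 1 ν] with x h3 h4
  rw [← hw, ← h1, h4, zero_add, Pi.zero_apply] at h3
  rw [h4, Pi.zero_apply]
  have := ha1 x
  rcases mul_eq_zero.1 h3.symm with h5 | h5
  · exact absurd h5 (by positivity)
  · exact h5


/-- Any substochastic semigroup whose generator extends `M + P` is the semigroup `semJ`. -/
lemma semJ_unique (ha : Measurable a) (S : SubstochasticSemigroup ν)
    (G : Lp ℝ 1 ν →ₗ.[ℝ] Lp ℝ 1 ν) (hG : IsGenerator S G) (hle : opM a ν + opP a v ≤ G)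
    (t : ℝ≥0) (φ : Lp ℝ 1 ν) : (semJ v hv hv1).T t φ = S.T t φ := by
  apply semigroup_unique (semJ v hv hv1) S (opB v) (dense_dom a ha) (dense_dom a ha)
  · intro φ _
    exact (isGenerator_semJ v hv hv1 φ (opB v φ)).1 ((mem_graph_opJ v φ _).2 rfl)
  · intro φ h
    apply (hG φ (opB v φ)).1
    exact LinearPMap.le_graph_of_le hle ((mem_graph_sum a v φ _).2 ⟨h, rfl⟩)

/-- strong stability of `semM`. -/
lemma semM_stable (φ : Lp ℝ 1 ν) :
    Tendsto (fun t : ℝ≥0 => (semM a ha ha1 ν).T t φ) atTop (𝓝 0) := by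
  have h0 : (0 : Lp ℝ 1 ν) = (integrable_zero Ξ ℝ ν).toL1 _ := by
    rw [Integrable.toL1_zero]
  rw [h0]
  show Tendsto (fun t : ℝ≥0 => mulOp ν (fun x => Real.exp (-(t : ℝ) * a x)) (exp_meas a ha t) 1
    (exp_bound a ha1 t) φ) atTop _
  simp only [mulOp_eq]
  apply tendsto_toL1 (G := fun x => |φ x|)
  · exact (L1.integrable_coeFn φ).abs
  · refine Eventually.of_forall fun t => Eventually.of_forall fun x => ?_
    rw [abs_mul]
    calc _ ≤ 1 * |φ x| := mul_le_mul_of_nonneg_right (exp_bound a ha1 t x) (abs_nonneg _)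
      _ = |φ x| := one_mul _
  · refine Eventually.of_forall fun x => ?_
    have h1 : Tendsto (fun t : ℝ≥0 => Real.exp (-(t : ℝ) * a x)) atTop (𝓝 0) := by
      apply Real.tendsto_exp_atBot.comp
      have h2 : Tendsto (fun t : ℝ≥0 => (t : ℝ)) atTop atTop := NNReal.tendsto_coe_atTop.2 tendsto_id
      have h3 := tendsto_neg_atTop_atBot.comp h2
      have := ha1 x
      exact h3.atBot_mul_const (by linarith)
    simpa using h1.mul_const (φ x)

end Assembly

/-! ### Construction of the weight `a` and the density `v` -/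

section Weights

variable (A : ℕ → Set Ξ)

/-- The function with value `c n` on `A n` (for disjoint sets `A n`) and `0` elsewhere. -/
noncomputable def stepFun (c : ℕ → ℝ≥0) (x : Ξ) : ℝ :=
  (∑' n, (A n).indicator (fun _ => (c n : ENNReal)) x).toReal

lemma stepFun_meas (hA : ∀ n, MeasurableSet (A n)) (c : ℕ → ℝ≥0) : Measurable (stepFun A c) := by
  apply Measurable.ennreal_toReal
  apply Measurable.tsum
  intro n
  exact measurable_const.indicator (hA n)

omit [MeasurableSpace Ξ] in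
lemma stepFun_nonneg (c : ℕ → ℝ≥0) (x : Ξ) : 0 ≤ stepFun A c x := ENNReal.toReal_nonneg

omit [MeasurableSpace Ξ] in
lemma stepFun_of_mem (hd : Pairwise (Function.onFun Disjoint A)) (c : ℕ → ℝ≥0) {k : ℕ} {x : Ξ}
    (hx : x ∈ A k) : stepFun A c x = c k := by
  unfold stepFun
  rw [tsum_eq_single k]
  · rw [Set.indicator_of_mem hx]; simp
  · intro n hn
    apply Set.indicator_of_notMem
    intro hx2
    exact Set.disjoint_left.1 (hd hn) hx2 hx

omit [MeasurableSpace Ξ] in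
lemma stepFun_of_notMem (c : ℕ → ℝ≥0) {x : Ξ} (hx : x ∉ ⋃ n, A n) : stepFun A c x = 0 := by
  unfold stepFun
  have : ∀ n, (A n).indicator (fun _ => (c n : ENNReal)) x = 0 := by
    intro n
    apply Set.indicator_of_notMem
    intro h
    exact hx (Set.mem_iUnion.2 ⟨n, h⟩)
  simp [this]

lemma exists_weight (hA : ∀ n, MeasurableSet (A n)) (hd : Pairwise (Function.onFun Disjoint A))
    (h0 : ∀ n, ν (A n) ≠ 0) (hfin : ∀ n, ν (A n) ≠ ⊤) :
    ∃ (a : Ξ → ℝ) (v : Lp ℝ 1 ν), Measurable a ∧ (∀ x, 1 ≤ a x) ∧ 0 ≤ v ∧ I ν v = 1 ∧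
      ¬ Integrable (fun x => a x * v x) ν := by
  set c : ℕ → ℝ≥0 := fun n => (1 / 2) / 2 ^ n / (ν (A n)).toNNReal with hc
  set f : Ξ → ℝ := stepFun A c with hf
  set a : Ξ → ℝ := fun x => 1 + stepFun A (fun n => 2 * 2 ^ n) x with ha
  have hfm : Measurable f := stepFun_meas A hA c
  have hf0 : ∀ x, 0 ≤ f x := stepFun_nonneg A c
  have hpos : ∀ n, 0 < (ν (A n)).toReal := fun n => ENNReal.toReal_pos (h0 n) (hfin n)
  have hon : ∀ n, IntegrableOn f (A n) ν := by
    intro n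
    have : IntegrableOn (fun _ => ((c n : ℝ≥0) : ℝ)) (A n) ν := integrableOn_const (hfin n)
    apply this.congr_fun _ (hA n)
    intro x hx
    exact (stepFun_of_mem A hd c hx).symm
  have hint : ∀ n, ∫ x in A n, f x ∂ν = 1 / 2 / 2 ^ n := by
    intro n
    rw [setIntegral_congr_fun (hA n) (fun x hx => stepFun_of_mem A hd c hx), setIntegral_const,
      smul_eq_mul, Measure.real, hc]
    have := hpos n
    simp only [NNReal.coe_div, NNReal.coe_pow, NNReal.coe_one, NNReal.coe_ofNat,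
      ENNReal.coe_toNNReal_eq_toReal]
    field_simp
  have hsupp : Function.support f ⊆ ⋃ n, A n := by
    intro x hx
    by_contra h
    exact hx (stepFun_of_notMem A c h)
  have hfi : Integrable f ν := by
    rw [← integrableOn_iff_integrable_of_support_subset hsupp]
    apply integrableOn_iUnion_of_summable_integral_norm hon
    have : (fun n => ∫ x in A n, ‖f x‖ ∂ν) = fun n => 1 / 2 / 2 ^ n := by
      funext n
      rw [← hint n]
      congr 1
      funext x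
      exact Real.norm_of_nonneg (hf0 x)
    rw [this]
    exact (hasSum_geometric_two' 1).summable
  have hfint : ∫ x, f x ∂ν = 1 := by
    have h1 := hasSum_integral_iUnion hA hd hfi.integrableOn
    rw [setIntegral_eq_integral_of_forall_compl_eq_zero
      (fun x hx => stepFun_of_notMem A c hx)] at h1
    simp only [hint] at h1
    exact h1.unique (hasSum_geometric_two' 1)
  refine ⟨a, hfi.toL1 f, ?_, ?_, ?_, ?_, ?_⟩
  · exact (stepFun_meas A hA _).const_add 1
  · intro x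
    have := stepFun_nonneg A (fun n => 2 * 2 ^ n) x
    simp only [ha]
    linarith
  · rw [← Lp.coeFn_nonneg]
    filter_upwards [hfi.coeFn_toL1] with x hx
    rw [hx]
    exact hf0 x
  · rw [I_eq, integral_congr_ae hfi.coeFn_toL1, hfint]
  · intro h
    have h2 : Integrable (fun x => a x * f x) ν := by
      apply h.congr
      filter_upwards [hfi.coeFn_toL1] with x hx
      rw [hx]
    have h3 := (hasSum_integral_iUnion hA hd h2.integrableOn).summable.tendsto_atTop_zero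
    have h4 : ∀ n, 1 ≤ ∫ x in A n, a x * f x ∂ν := by
      intro n
      have h5 : ∀ x ∈ A n, a x * f x = (1 + 2 * 2 ^ n) * f x := by
        intro x hx
        have := stepFun_of_mem A hd (fun n => 2 * 2 ^ n) hx
        simp only [ha]
        rw [this]
        push_cast
        ring
      rw [setIntegral_congr_fun (hA n) h5, integral_const_mul, hint n]
      have : (0 : ℝ) < 2 ^ n := by positivity
      rw [le_iff_eq_or_lt]
      right
      field_simp
      linarith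
    have h5 := ge_of_tendsto' h3 h4
    linarith

end Weights

/-- **Q1 is false.**  On `L¹(Ξ, ν)`, for every measure space `(Ξ, ν)` containing infinitely many
pairwise disjoint measurable sets of finite positive measure (for instance `ℕ` with counting
measure or `ℝ` with Lebesgue measure), there are `M₁ = M` and `P` as in the problem such that

* the Kato-Voigt semigroup, with generator `J₁ = J`, is honest (`J` is the closure of `M + P`) but
  not genuinely honest (`J` and `M` have different domains);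
* there is `v ≥ 0`, `v ≠ 0`, in the domain of `J` but not in the domain of `M`, with `J v = 0`;
* and yet `1` is not an eigenvalue of `P (0 - M)⁻¹`: no nonzero `u ∈ L¹(ν)` (nonnegative or not)
  satisfies `P (0 - M)⁻¹ u = u`.

In addition `(M, P)` is conservative (`∫ (M φ + P φ) dν = 0` on the domain of `M`) and the
semigroup generated by `M` is strongly stable. -/
theorem result (ν : Measure Ξ) (A : ℕ → Set Ξ) (hA : ∀ n, MeasurableSet (A n))
    (hd : Pairwise (Function.onFun Disjoint A)) (h0 : ∀ n, ν (A n) ≠ 0)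
    (hfin : ∀ n, ν (A n) ≠ ⊤) :
    ∃ (M P J : UOp ν) (S : SubstochasticSemigroup ν) (B₀ : BOp ν) (v : L1 ν),
      IsKatoPair M P ∧ IsKatoVoigt M P S J ∧ IsHonest M P J ∧ ¬ IsGenuinelyHonest M P J ∧
      IsNullVectorOutside M J v ∧ IsPResolventZero M P B₀ ∧ (∀ u : L1 ν, u ≠ 0 → B₀ u ≠ u) ∧
      IsConservative M P ∧ IsStronglyStable M := by
  obtain ⟨a, v, ha, ha1, hv, hv1, hav⟩ := exists_weight (ν := ν) A hA hd h0 hfin
  have hcons : ∀ (φ : Lp ℝ 1 ν) (hM : φ ∈ (opM a ν).domain) (hP : φ ∈ (opP a v).domain),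
      ∫ x, (opM a ν ⟨φ, hM⟩ x + opP a v ⟨φ, hP⟩ x) ∂ν = 0 := by
    intro φ hM hP
    rw [← I_opB v hv1 φ, I_eq]
    apply integral_congr_ae
    have h1 : opP a v ⟨φ, hP⟩ = opB v φ - opM a ν ⟨φ, hM⟩ := rfl
    filter_upwards [Lp.coeFn_sub (opB v φ) (opM a ν ⟨φ, hM⟩)] with x hx
    rw [h1, hx, Pi.sub_apply]
    ring
  have hJv : opB v v = 0 := by rw [opB_apply, hv1, one_smul, sub_self]
  have hv0 : v ≠ 0 := by
    rintro rfl
    rw [map_zero] at hv1
    exact zero_ne_one hv1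
  refine ⟨opM a ν, opP a v, opJ v, semJ v hv hv1,
    presM a ha ha1 v 0 le_rfl, v, ?_, ?_, ?_, ?_, ?_, isPResolventZero a ha ha1 v, ?_,
    hcons, _, isGenerator_semM a ha ha1, semM_stable a ha ha1⟩
  · exact ⟨⟨_, isGenerator_semM a ha ha1⟩, le_rfl, fun φ h => opP_nonneg a v ha1 hv φ h,
      fun φ hM hP _ => (hcons φ hM hP).le⟩
  · refine ⟨isGenerator_semJ v hv hv1, sum_le_opJ a v, fun S' J' h1 h2 t φ _ => ?_⟩
    rw [semJ_unique a v hv hv1 ha S' J' h1 h2 t φ]
  · exact ⟨(opJ_isClosed v).isClosable.leIsClosable (sum_le_opJ a v), (closure_sum a v ha).symm⟩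
  · rintro ⟨-, h⟩
    apply hav
    have h1 : v ∈ (opM a ν).domain := h ▸ (trivial : v ∈ (opJ v).domain)
    exact h1
  · exact ⟨hv, hv0, hav, trivial, hJv⟩
  · intro u hu h
    exact hu (no_eigenvector a ha ha1 v hav u h)

end Pool.Agent.Results.MP_e4fc02_an.KatoVoigtNullVector
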